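import Pool.Agent.Helper36.EV.Goals

/-!
# Evolution equations in a graded space: product rule and uniqueness
-/

namespace Pool.Agent.Helper56.EV

open Set Filter Topology Pool.Agent.Helper36.EV

variable {X H : Type} [AddCommGroup X] [Module ℝ X] [NormedAddCommGroup H] [NormedSpace ℝ H]

/-- Product rule. -/
theorem prod_rule (S : Scale X H) (m : ℕ) (τ : ℝ) (u v : ℝ → X) (u' v' : X) (t : ℝ)
    (hu : ∀ δ > 0, ∃ η > 0, ∀ s' ∈ Icc 0 τ, |s' - t| ≤ η →
      S.q m (u s' - u t - (s' - t) • u') ≤ δ * (s' - t) ^ 2)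
    (hv : ∀ δ > 0, ∃ η > 0, ∀ s' ∈ Icc 0 τ, |s' - t| ≤ η →
      S.q m (v s' - v t - (s' - t) • v') ≤ δ * (s' - t) ^ 2) :
    HasDerivWithinAt (fun s => S.B m (u s) (v s)) (S.B m u' (v t) + S.B m (u t) v')
      (Icc 0 τ) t := by
  rw [hasDerivWithinAt_iff_isLittleO, Asymptotics.isLittleO_iff]
  intro c hc
  set K : ℝ := S.nrm m (v t) + S.nrm m v' + 1 + S.nrm m (u t) + S.nrm m u' with hK
  have n1 := S.nrm_nonneg m (v t)
  have n2 := S.nrm_nonneg m v'
  have n3 := S.nrm_nonneg m (u t)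
  have n4 := S.nrm_nonneg m u'
  have hK1 : 1 ≤ K := by rw [hK]; linarith
  set δ : ℝ := min 1 (c / (2 * K)) with hδ
  have hδ0 : 0 < δ := by rw [hδ]; positivity
  have hδ1 : δ ≤ 1 := min_le_left _ _
  have hδK : δ * K ≤ c / 2 := by
    have : δ ≤ c / (2 * K) := min_le_right _ _
    calc δ * K ≤ c / (2 * K) * K := by gcongr
      _ = c / 2 := by field_simp
  obtain ⟨η1, hη1, h1⟩ := hu (δ ^ 2) (by positivity)
  obtain ⟨η2, hη2, h2⟩ := hv (δ ^ 2) (by positivity)
  set b : ℝ := |S.B m u' v'| with hb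
  have hb0 : 0 ≤ b := abs_nonneg _
  set η : ℝ := min (min η1 η2) (min 1 (c / (2 * (b + 1)))) with hη
  have hη0 : 0 < η := by rw [hη]; positivity
  have hball : ∀ᶠ s in 𝓝[Icc 0 τ] t, s ∈ Icc 0 τ ∧ |s - t| ≤ η := by
    have e1 : ∀ᶠ s in 𝓝[Icc 0 τ] t, s ∈ Icc 0 τ := self_mem_nhdsWithin
    have e2 : ∀ᶠ s in 𝓝[Icc 0 τ] t, |s - t| ≤ η := by
      apply eventually_nhdsWithin_of_eventually_nhds
      have := Metric.closedBall_mem_nhds t hη0
      filter_upwards [this] with s hs
      simpa [Real.dist_eq] using hs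
    exact e1.and e2
  filter_upwards [hball] with s hs
  obtain ⟨hsI, hsη⟩ := hs
  have hs1 : |s - t| ≤ η1 := hsη.trans ((min_le_left _ _).trans (min_le_left _ _))
  have hs2 : |s - t| ≤ η2 := hsη.trans ((min_le_left _ _).trans (min_le_right _ _))
  have hs3 : |s - t| ≤ 1 := hsη.trans ((min_le_right _ _).trans (min_le_left _ _))
  have hs4 : |s - t| ≤ c / (2 * (b + 1)) := hsη.trans ((min_le_right _ _).trans (min_le_right _ _))
  set p : X := u s - u t - (s - t) • u' with hp
  set r : X := v s - v t - (s - t) • v' with hr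
  have ha := abs_nonneg (s - t)
  have hp1 : S.nrm m p ≤ δ * |s - t| := by
    apply S.nrm_le_of_q_le _ (by positivity)
    rw [mul_pow, sq_abs]
    exact h1 s hsI hs1
  have hr1 : S.nrm m r ≤ δ * |s - t| := by
    apply S.nrm_le_of_q_le _ (by positivity)
    rw [mul_pow, sq_abs]
    exact h2 s hsI hs2
  have hus : u s = u t + (s - t) • u' + p := by rw [hp]; abel
  have hvs : v s = v t + (s - t) • v' + r := by rw [hr]; abel
  have hvn : S.nrm m (v s) ≤ S.nrm m (v t) + S.nrm m v' + 1 := by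
    rw [hvs]
    have e1 := S.nrm_add_le m (v t + (s - t) • v') r
    have e2 := S.nrm_add_le m (v t) ((s - t) • v')
    rw [S.nrm_smul] at e2
    have e3 : |s - t| * S.nrm m v' ≤ 1 * S.nrm m v' := by gcongr
    have e4 : δ * |s - t| ≤ 1 * 1 := by gcongr
    linarith
  have hun : S.nrm m (u t + (s - t) • u') ≤ S.nrm m (u t) + S.nrm m u' := by
    have e2 := S.nrm_add_le m (u t) ((s - t) • u')
    rw [S.nrm_smul] at e2
    have e3 : |s - t| * S.nrm m u' ≤ 1 * S.nrm m u' := by gcongr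
    linarith
  have hid : S.B m (u s) (v s) - S.B m (u t) (v t) -
      (s - t) • (S.B m u' (v t) + S.B m (u t) v') =
      (s - t) ^ 2 * S.B m u' v' + S.B m p (v s) + S.B m (u t + (s - t) • u') r := by
    have e1 : S.B m (u s) (v s) = S.B m (u t + (s - t) • u') (v s) + S.B m p (v s) := by
      conv_lhs => rw [hus]
      rw [map_add, LinearMap.add_apply]
    have e2 : S.B m (u t + (s - t) • u') (v s) =
        S.B m (u t + (s - t) • u') (v t + (s - t) • v') + S.B m (u t + (s - t) • u') r := by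
      conv_lhs => rw [hvs]
      rw [map_add]
    rw [e1, e2]
    simp only [map_add, map_smul, LinearMap.add_apply, LinearMap.smul_apply, smul_eq_mul]
    ring
  rw [hid, Real.norm_eq_abs, Real.norm_eq_abs]
  have f1 : |(s - t) ^ 2 * S.B m u' v'| ≤ |s - t| * (c / 2) := by
    rw [abs_mul, abs_pow, pow_two, mul_assoc]
    gcongr
    calc |s - t| * b ≤ c / (2 * (b + 1)) * (b + 1) := by gcongr; linarith
      _ = c / 2 := by field_simp
  have f2 : |S.B m p (v s)| ≤ (δ * |s - t|) * (S.nrm m (v t) + S.nrm m v' + 1) :=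
    (S.abs_B_le m _ _).trans (mul_le_mul hp1 hvn (S.nrm_nonneg _ _) (by positivity))
  have f3 : |S.B m (u t + (s - t) • u') r| ≤ (S.nrm m (u t) + S.nrm m u') * (δ * |s - t|) :=
    (S.abs_B_le m _ _).trans (mul_le_mul hun hr1 (S.nrm_nonneg _ _) (by positivity))
  have f4 := abs_add_three ((s - t) ^ 2 * S.B m u' v') (S.B m p (v s))
    (S.B m (u t + (s - t) • u') r)
  have f5 : (δ * |s - t|) * (S.nrm m (v t) + S.nrm m v' + 1) +
      (S.nrm m (u t) + S.nrm m u') * (δ * |s - t|) = |s - t| * (δ * K) := by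
    rw [hK]; ring
  have f6 : |s - t| * (δ * K) ≤ |s - t| * (c / 2) := by gcongr
  linarith

theorem prod : G_PROD := by
  intro hGW X H _ _ _ _ S m τ
  refine ⟨fun u v u' v' t _ hu hv => prod_rule S m τ u v u' v' t hu hv, ?_⟩
  intro u v u' v' C hu hv hC h0 t ht
  have hd : ∀ t ∈ Icc 0 τ, HasDerivWithinAt (fun s => S.B m (u s - v s) (u s - v s))
      (S.B m (u' t - v' t) (u t - v t) + S.B m (u t - v t) (u' t - v' t)) (Icc 0 τ) t := by
    intro t ht
    have hw : ∀ δ > 0, ∃ η > 0, ∀ s' ∈ Icc 0 τ, |s' - t| ≤ η →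
        S.q m ((u s' - v s') - (u t - v t) - (s' - t) • (u' t - v' t)) ≤ δ * (s' - t) ^ 2 := by
      intro δ hδ
      obtain ⟨η1, hη1, h1⟩ := hu t ht (δ / 4) (by positivity)
      obtain ⟨η2, hη2, h2⟩ := hv t ht (δ / 4) (by positivity)
      refine ⟨min η1 η2, lt_min hη1 hη2, fun s hs hst => ?_⟩
      have g1 := h1 s hs (hst.trans (min_le_left _ _))
      have g2 := h2 s hs (hst.trans (min_le_right _ _))
      have e : (u s - v s) - (u t - v t) - (s - t) • (u' t - v' t) =
          (u s - u t - (s - t) • u' t) - (v s - v t - (s - t) • v' t) := by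
        rw [smul_sub]; abel
      rw [e]
      set p := u s - u t - (s - t) • u' t
      set r := v s - v t - (s - t) • v' t
      have e1 := S.q_add m p (-r)
      have e2 := S.q_add m p r
      have e3 := S.q_nonneg m (p + r)
      rw [S.q_neg, map_neg, ← sub_eq_add_neg] at e1
      linarith
    exact prod_rule S m τ (fun s => u s - v s) (fun s => u s - v s) _ _ t hw hw
  have hg := hGW.1 (fun s => S.B m (u s - v s) (u s - v s))
    (fun t => S.B m (u' t - v' t) (u t - v t) + S.B m (u t - v t) (u' t - v' t))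
    (2 * |C|) 0 τ (by positivity) le_rfl (fun t ht => ⟨hd t ht, ?_⟩) t ht
  · have hq0 : S.B m (u 0 - v 0) (u 0 - v 0) = 0 := h0
    simp only [hq0, zero_mul, add_zero, mul_zero] at hg
    exact le_antisymm hg (S.q_nonneg m _)
  · have h1 := hC t ht
    have h2 : C * S.q m (u t - v t) ≤ |C| * S.q m (u t - v t) :=
      mul_le_mul_of_nonneg_right (le_abs_self C) (S.q_nonneg m _)
    have h3 := S.symm m (u' t - v' t) (u t - v t)
    have h4 : S.q m (u t - v t) = S.B m (u t - v t) (u t - v t) := rfl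
    rw [h3, ← h4]
    linarith

end Pool.Agent.Helper56.EV
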