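import Pool.Agent.Helper70.OB.GoalsE

/-!
Project EV (MP_91ee6f_gt, even dimensions), packet EV-ECNT: the count of zeros gives a contradiction.
-/

namespace Pool.Agent.Helper56.EV

open Pool.Agent.Helper70.OB

theorem ecnt : EC1 → ECS → ECT → ECNT := by
  intro h1 hs ht k K L V P hE d D b F hT
  have hk := hE.two_le
  have key : ∀ j : ℕ, j + 1 < k → ZZ (V (j + 1)) b (2 * F.card + j) := by
    intro j
    induction j with
    | zero =>
      intro _
      have hv := hT.vb 0 (by omega)
      exact h1 k K L V P hE b hT.pos hv.1 hv.2 F hT.ne hT.mem hT.ge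
    | succ j ih =>
      intro hj
      have hv := hT.vb (j + 1) (by omega)
      exact hs k K L V P hE b hT.pos (j + 1) hj hv.1 hv.2 _ (ih (by omega))
  obtain ⟨m, rfl⟩ : ∃ m, k = m + 2 := ⟨k - 2, by omega⟩
  by_cases hm : m = 0
  · subst hm
    have hv := hT.vb 0 (by omega)
    have h := h1 _ K L V P hE b hT.pos hv.1 hv.2 F hT.ne hT.mem hT.ge
    have := ht _ K L V P hE d D b F hT _ h
    omega
  · have h := key m (by omega)
    have := ht _ K L V P hE d D b F hT _ h
    omega

end Pool.Agent.Helper56.EV
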